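import Pool.Agent.N805.VP.Base

/-! # VP/PRD: from boxes of differences to products of intervals -/

set_option autoImplicit false

open MeasureTheory Set Filter Topology

namespace Pool.Agent.N478.VP

open Pool.Agent.N805.VP

variable {J : Finset ℕ} {x : ℕ → ℝ} {k : ℕ}

/-- one interval and a product of intervals -/
def cc (A : Set ℝ) (c : Fin k → Set ℝ) : Fin (k + 1) → Set ℝ := Fin.cons A c

theorem cc_zero (A : Set ℝ) (c : Fin k → Set ℝ) : cc A c 0 = A := rfl

theorem cc_succ (A : Set ℝ) (c : Fin k → Set ℝ) (i : Fin k) : cc A c i.succ = c i := rfl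

theorem cc_all {A : Set ℝ} {c : Fin k → Set ℝ} {P : Set ℝ → Prop} (h0 : P A) (h : ∀ i, P (c i)) :
    ∀ i, P (cc A c i) := by
  intro i
  refine Fin.cases ?_ (fun i => ?_) i
  · exact h0
  · exact h i

theorem cc_bdd {A : Set ℝ} {c : Fin k → Set ℝ} (h0 : ∃ b : ℝ, A ⊆ Icc (-b) b)
    (h : ∃ b : ℝ, ∀ i, c i ⊆ Icc (-b) b) : ∃ b : ℝ, ∀ i, cc A c i ⊆ Icc (-b) b := by
  obtain ⟨b₁, h1⟩ := h0
  obtain ⟨b₂, h2⟩ := h
  refine ⟨max b₁ b₂, cc_all (P := fun S => S ⊆ Icc (-max b₁ b₂) (max b₁ b₂)) ?_ fun i => ?_⟩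
  · exact h1.trans (Icc_subset_Icc (neg_le_neg (le_max_left _ _)) (le_max_left _ _))
  · exact (h2 i).trans (Icc_subset_Icc (neg_le_neg (le_max_right _ _)) (le_max_right _ _))

theorem ico_bdd (s t : ℝ) : ∃ b : ℝ, Ico s t ⊆ Icc (-b) b :=
  ⟨|s| + |t|, fun u hu => ⟨by
    have := neg_abs_le s
    have := abs_nonneg t
    linarith [hu.1], by
    have := le_abs_self t
    have := abs_nonneg s
    linarith [hu.2]⟩⟩

theorem icos_bdd (a b : Fin k → ℝ) : ∃ m : ℝ, ∀ i, Ico (a i) (b i) ⊆ Icc (-m) m := by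
  refine ⟨∑ i, (|a i| + |b i|), fun i u hu => ?_⟩
  have h1 : |a i| + |b i| ≤ ∑ i, (|a i| + |b i|) :=
    Finset.single_le_sum (f := fun i => |a i| + |b i|) (fun _ _ => by positivity)
      (Finset.mem_univ i)
  have h2 := neg_abs_le (a i)
  have h3 := le_abs_self (b i)
  have h4 := abs_nonneg (a i)
  have h5 := abs_nonneg (b i)
  exact ⟨by linarith [hu.1], by linarith [hu.2]⟩

/-! ### Additivity -/

theorem tup_add {A B : Set ℝ} (hAB : Disjoint A B) (c : Fin k → Set ℝ) (t : ℝ) :
    (tup J x (cc (A ∪ B) c) t).card = (tup J x (cc A c) t).card + (tup J x (cc B c) t).card := by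
  classical
  rw [← Finset.card_union_of_disjoint]
  · congr 1
    ext j
    rw [Finset.mem_union, mem_tup, mem_tup, mem_tup]
    simp only [Fin.forall_fin_succ (P := fun i => x (j i) - t ∈ cc _ c i), cc_zero, cc_succ,
      mem_union]
    tauto
  · rw [Finset.disjoint_left]
    intro j h1 h2
    rw [mem_tup] at h1 h2
    exact (Set.disjoint_left.mp hAB) (h1.2.2 0) (h2.2.2 0)

theorem mom_add {A B : Set ℝ} (hAB : Disjoint A B) {c : Fin k → Set ℝ} (hA : MeasurableSet A)
    (hB : MeasurableSet B) (hc : ∀ i, MeasurableSet (c i)) (bA : ∃ b : ℝ, A ⊆ Icc (-b) b)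
    (bB : ∃ b : ℝ, B ⊆ Icc (-b) b) (bc : ∃ b : ℝ, ∀ i, c i ⊆ Icc (-b) b) :
    mom J x (cc (A ∪ B) c) = mom J x (cc A c) + mom J x (cc B c) := by
  unfold mom
  rw [← integral_add (int_tup (by omega) (cc_all hA hc) (cc_bdd bA bc))
    (int_tup (by omega) (cc_all hB hc) (cc_bdd bB bc))]
  congr 1
  funext t
  rw [tup_add hAB]
  push_cast
  rfl

theorem G_add {A B : Set ℝ} (hAB : Disjoint A B) {c : Fin k → Set ℝ}
    (hB : MeasurableSet B) (hc : ∀ i, MeasurableSet (c i)) (bA : ∃ b : ℝ, A ⊆ Icc (-b) b)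
    (bB : ∃ b : ℝ, B ⊆ Icc (-b) b) (bc : ∃ b : ℝ, ∀ i, c i ⊆ Icc (-b) b) :
    G (cc (A ∪ B) c) = G (cc A c) + G (cc B c) := by
  unfold G
  rw [← setIntegral_union _ (MeasurableSet.univ_pi (cc_all hB hc)) (D_int (cc_bdd bA bc))
    (D_int (cc_bdd bB bc))]
  · congr 2
    ext q
    simp only [Set.mem_pi, mem_univ, forall_true_left, mem_union,
      Fin.forall_fin_succ (P := fun i => q i ∈ cc _ c i), cc_zero, cc_succ]
    tauto
  · rw [Set.disjoint_left]
    intro q h1 h2
    exact (Set.disjoint_left.mp hAB) (h1 0 (mem_univ _)) (h2 0 (mem_univ _))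

theorem ico_split (s d : ℝ) (hd : 0 ≤ d) (R : ℕ) :
    Ico s (s + (R + 1 : ℕ) * d) = Ico s (s + R * d) ∪ Ico (s + R * d) (s + R * d + d) := by
  have h1 : s + (R + 1 : ℕ) * d = s + R * d + d := by push_cast; ring
  rw [h1, Ico_union_Ico_eq_Ico]
  · have : 0 ≤ (R : ℝ) * d := by positivity
    linarith
  · linarith

theorem slices (c : Fin k → Set ℝ) (hc : ∀ i, MeasurableSet (c i))
    (bc : ∃ b : ℝ, ∀ i, c i ⊆ Icc (-b) b) (s d : ℝ) (hd : 0 ≤ d) (R : ℕ) :
    (∀ (J : Finset ℕ) (x : ℕ → ℝ), mom J x (cc (Ico s (s + R * d)) c) =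
      ∑ p ∈ Finset.range R, mom J x (cc (Ico (s + p * d) (s + p * d + d)) c)) ∧
    G (cc (Ico s (s + R * d)) c) =
      ∑ p ∈ Finset.range R, G (cc (Ico (s + p * d) (s + p * d + d)) c) := by
  induction R with
  | zero =>
    have h0 : Ico s (s + (0 : ℕ) * d) = ∅ := by simp
    rw [h0]
    constructor
    · intro J x
      rw [Finset.range_zero, Finset.sum_empty]
      unfold mom
      have : ∀ t, (tup J x (cc ∅ c) t).card = 0 := by
        intro t
        rw [Finset.card_eq_zero, Finset.eq_empty_iff_forall_notMem]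
        intro j hj
        rw [mem_tup] at hj
        exact hj.2.2 0
      simp [this]
    · rw [Finset.range_zero, Finset.sum_empty]
      unfold G
      have : Set.pi univ (cc ∅ c) = (∅ : Set (Fin (k + 1) → ℝ)) := by
        rw [Set.eq_empty_iff_forall_notMem]
        intro q hq
        exact hq 0 (mem_univ _)
      rw [this, setIntegral_empty]
  | succ R ih =>
    have hdis : Disjoint (Ico s (s + R * d)) (Ico (s + R * d) (s + R * d + d)) := by
      rw [Set.disjoint_left]
      intro u h1 h2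
      exact absurd h1.2 (not_lt.mpr h2.1)
    rw [ico_split s d hd R]
    constructor
    · intro J x
      rw [mom_add hdis measurableSet_Ico measurableSet_Ico hc (ico_bdd _ _) (ico_bdd _ _) bc,
        ih.1, Finset.sum_range_succ]
    · rw [G_add hdis measurableSet_Ico hc (ico_bdd _ _) (ico_bdd _ _) bc, ih.2,
        Finset.sum_range_succ]

/-! ### One slice of the moment -/

open scoped Classical in
theorem dif_card (α β : Fin k → ℝ) :
    (((Fintype.piFinset fun _ : Fin (k + 1) => J).filter Function.Injective).filter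
      fun j => ∀ i : Fin k, x (j i.succ) - x (j 0) ∈ Icc (α i) (β i)).card =
      (dif J x α β).card := by
  refine Finset.card_nbij' (fun j => (j 0, fun i => j i.succ)) (fun p => Fin.cons p.1 p.2) ?_ ?_ ?_ ?_
  · intro j hj
    rw [Finset.mem_coe, Finset.mem_filter, Finset.mem_filter, Fintype.mem_piFinset] at hj
    rw [Finset.mem_coe, mem_dif]
    obtain ⟨⟨h1, h2⟩, h3⟩ := hj
    refine ⟨⟨h1 0, fun i => h1 _⟩, fun i i' h => Fin.succ_injective _ (h2 h), fun i h => ?_, h3⟩
    exact (Fin.succ_ne_zero i) (h2 h)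
  · intro p hp
    rw [Finset.mem_coe, mem_dif] at hp
    obtain ⟨⟨h1, h2⟩, h3, h4, h5⟩ := hp
    rw [Finset.mem_coe, Finset.mem_filter, Finset.mem_filter, Fintype.mem_piFinset]
    refine ⟨⟨fun i => ?_, ?_⟩, fun i => ?_⟩
    · refine Fin.cases ?_ (fun i => ?_) i
      · exact h1
      · exact h2 i
    · rw [Fin.cons_injective_iff]
      refine ⟨?_, h3⟩
      rintro ⟨i, hi⟩
      exact h4 i hi
    · exact h5 i
  · intro j _
    exact Fin.cons_self_tail j
  · intro p _
    rfl

theorem slice_vol (s d : ℝ) (y : ℝ) (hd : 0 ≤ d) :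
    volume.real {t : ℝ | y - t ∈ Ico s (s + d)} = d := by
  have h1 : {t : ℝ | y - t ∈ Ico s (s + d)} = Ioc (y - (s + d)) (y - s) := by
    ext t
    simp only [mem_setOf_eq, mem_Ico, mem_Ioc]
    constructor
    · rintro ⟨h1, h2⟩; constructor <;> linarith
    · rintro ⟨h1, h2⟩; constructor <;> linarith
  rw [h1, Real.volume_real_Ioc_of_le (by linarith)]
  ring

theorem slice_mom (a b : Fin k → ℝ) (s d : ℝ) (hd : 0 ≤ d) :
    d * ((dif J x (fun i => a i - s) (fun i => b i - s - d)).card : ℝ) ≤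
      mom J x (cc (Ico s (s + d)) fun i => Ico (a i) (b i)) ∧
    mom J x (cc (Ico s (s + d)) fun i => Ico (a i) (b i)) ≤
      d * ((dif J x (fun i => a i - s - d) (fun i => b i - s)).card : ℝ) := by
  classical
  have hm : ∀ i, MeasurableSet (cc (Ico s (s + d)) (fun i => Ico (a i) (b i)) i) :=
    cc_all (P := MeasurableSet) measurableSet_Ico fun _ => measurableSet_Ico
  rw [mom_sum (by omega) hm (cc_bdd (ico_bdd _ _) (icos_bdd a b))]
  have hfin : ∀ y : ℝ, volume {t : ℝ | y - t ∈ Ico s (s + d)} ≠ ⊤ := by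
    intro y
    have h1 : {t : ℝ | y - t ∈ Ico s (s + d)} ⊆ Icc (y - (s + d)) (y - s) := by
      intro t ht
      simp only [mem_setOf_eq, mem_Ico] at ht
      constructor <;> linarith [ht.1, ht.2]
    exact ((measure_mono h1).trans_lt (by simp)).ne
  have hsum : ∀ α β : Fin k → ℝ, d * ((dif J x α β).card : ℝ) =
      ∑ j ∈ (Fintype.piFinset fun _ : Fin (k + 1) => J).filter Function.Injective,
        if ∀ i : Fin k, x (j i.succ) - x (j 0) ∈ Icc (α i) (β i) then d else 0 := by
    intro α β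
    rw [← dif_card, ← Finset.sum_filter, Finset.sum_const, nsmul_eq_mul, mul_comm]
  rw [hsum, hsum]
  constructor
  · refine Finset.sum_le_sum fun j _ => ?_
    split_ifs with h
    · refine le_trans (le_of_eq (slice_vol s d (x (j 0)) hd).symm) (measureReal_mono ?_ ?_)
      · intro t ht
        simp only [mem_setOf_eq] at ht ⊢
        intro i
        refine Fin.cases ?_ (fun i => ?_) i
        · exact ht
        · show x (j i.succ) - t ∈ Ico (a i) (b i)
          have h1 := h i
          simp only [mem_Icc, mem_Ico] at h1 ht ⊢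
          constructor <;> linarith [h1.1, h1.2, ht.1, ht.2]
      · refine ((measure_mono fun t ht => ?_).trans_lt (lt_top_iff_ne_top.mpr (hfin (x (j 0))))).ne
        exact ht 0
    · exact measureReal_nonneg
  · refine Finset.sum_le_sum fun j _ => ?_
    split_ifs with h
    · have hs : {t : ℝ | ∀ i, x (j i) - t ∈ cc (Ico s (s + d)) (fun i => Ico (a i) (b i)) i} ⊆
          {t : ℝ | x (j 0) - t ∈ Ico s (s + d)} := fun t ht => ht 0
      exact (measureReal_mono hs (hfin _)).trans (le_of_eq (slice_vol s d (x (j 0)) hd))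
    · have : {t : ℝ | ∀ i, x (j i) - t ∈ cc (Ico s (s + d)) (fun i => Ico (a i) (b i)) i} = ∅ := by
        rw [Set.eq_empty_iff_forall_notMem]
        intro t ht
        apply h
        intro i
        have h1 : x (j i.succ) - t ∈ Ico (a i) (b i) := ht i.succ
        have h2 : x (j 0) - t ∈ Ico s (s + d) := ht 0
        simp only [mem_Icc, mem_Ico] at h1 h2 ⊢
        constructor <;> linarith [h1.1, h1.2, h2.1, h2.2]
      rw [this, measureReal_empty]

/-! ### One slice of the integral -/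

theorem cons_cont : Continuous fun z : ℝ × (Fin k → ℝ) => D (Fin.cons z.1 z.2 : Fin (k + 1) → ℝ) := by
  refine D_cont.comp (continuous_pi fun i => ?_)
  refine Fin.cases ?_ (fun i => ?_) i
  · simp only [Fin.cons_zero]
    exact continuous_fst
  · simp only [Fin.cons_succ]
    exact (continuous_apply i).comp continuous_snd

theorem D_cons_shift (y : ℝ) (u : Fin k → ℝ) :
    D (Fin.cons y (fun i => u i + y) : Fin (k + 1) → ℝ) = D (Fin.cons 0 u : Fin (k + 1) → ℝ) := by
  rw [← D_shift (Fin.cons 0 u : Fin (k + 1) → ℝ) y]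
  congr 1
  funext i
  refine Fin.cases ?_ (fun i => ?_) i
  · simp
  · simp

theorem prod_int {A : Set ℝ} {c : Fin k → Set ℝ} (bA : ∃ b : ℝ, A ⊆ Icc (-b) b)
    (bc : ∃ b : ℝ, ∀ i, c i ⊆ Icc (-b) b) :
    IntegrableOn (fun z : ℝ × (Fin k → ℝ) => D (Fin.cons z.1 z.2 : Fin (k + 1) → ℝ))
      (A ×ˢ Set.pi univ c) (volume.prod volume) := by
  obtain ⟨b₁, h1⟩ := bA
  obtain ⟨b₂, h2⟩ := bc
  have h3 : A ×ˢ Set.pi univ c ⊆ Icc (-b₁) b₁ ×ˢ Icc (fun _ : Fin k => -b₂) (fun _ => b₂) := by
    refine Set.prod_mono h1 fun q hq => ?_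
    exact ⟨fun i => (h2 i (hq i (mem_univ i))).1, fun i => (h2 i (hq i (mem_univ i))).2⟩
  exact (cons_cont.continuousOn.integrableOn_compact (isCompact_Icc.prod isCompact_Icc)).mono_set h3

theorem G_fubini {A : Set ℝ} {c : Fin k → Set ℝ} (bA : ∃ b : ℝ, A ⊆ Icc (-b) b)
    (bc : ∃ b : ℝ, ∀ i, c i ⊆ Icc (-b) b) :
    G (cc A c) = ∫ y in A, ∫ v in Set.pi univ c, D (Fin.cons y v : Fin (k + 1) → ℝ) := by
  rw [← setIntegral_prod _ (prod_int bA bc)]
  have h1 := volume_preserving_piFinSuccAbove (fun _ : Fin (k + 1) => ℝ) 0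
  have h2 := h1.setIntegral_preimage_emb
    (MeasurableEquiv.piFinSuccAbove (fun _ : Fin (k + 1) => ℝ) 0).measurableEmbedding
    (fun z : ℝ × (Fin k → ℝ) => D (Fin.cons z.1 z.2 : Fin (k + 1) → ℝ)) (A ×ˢ Set.pi univ c)
  refine Eq.trans ?_ h2
  unfold G
  have h3 : (MeasurableEquiv.piFinSuccAbove (fun _ : Fin (k + 1) => ℝ) 0) ⁻¹'
      (A ×ˢ Set.pi univ c) = Set.pi univ (cc A c) := by
    ext q
    rw [mem_preimage, Set.mem_prod, Set.mem_pi, Set.mem_pi]
    simp only [mem_univ, forall_true_left, Fin.forall_fin_succ (P := fun i => q i ∈ cc _ c i),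
      cc_zero, cc_succ]
    rfl
  rw [h3]
  refine integral_congr_ae (ae_of_all _ fun q => ?_)
  simp only
  congr 1
  funext i
  refine Fin.cases ?_ (fun i => ?_) i
  · rfl
  · rfl

theorem inner_eq (c : Fin k → Set ℝ) (hc : ∀ i, MeasurableSet (c i)) (y : ℝ) :
    ∫ v in Set.pi univ c, D (Fin.cons y v : Fin (k + 1) → ℝ) =
      ∫ u in {u : Fin k → ℝ | ∀ i, u i + y ∈ c i}, D (Fin.cons 0 u : Fin (k + 1) → ℝ) := by
  have hm : MeasurableSet {u : Fin k → ℝ | ∀ i, u i + y ∈ c i} := by
    rw [setOf_forall]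
    refine MeasurableSet.iInter fun i => ?_
    have h1 : Measurable fun u : Fin k → ℝ => u i + y := by fun_prop
    exact h1 (hc i)
  rw [← integral_indicator (MeasurableSet.univ_pi hc), ← integral_indicator hm,
    ← integral_add_right_eq_self (μ := (volume : Measure (Fin k → ℝ))) _ (fun _ => y)]
  refine integral_congr_ae (ae_of_all _ fun u => ?_)
  simp only
  by_cases h : ∀ i, u i + y ∈ c i
  · have h1 : u + (fun _ => y) ∈ Set.pi univ c := fun i _ => h i
    have h2 : u ∈ {u : Fin k → ℝ | ∀ i, u i + y ∈ c i} := h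
    rw [indicator_of_mem h1, indicator_of_mem h2]
    exact D_cons_shift y u
  · have h1 : u + (fun _ => y) ∉ Set.pi univ c := fun h' => h fun i => h' i (mem_univ i)
    have h2 : u ∉ {u : Fin k → ℝ | ∀ i, u i + y ∈ c i} := h
    rw [indicator_of_notMem h1, indicator_of_notMem h2]

theorem H_int (a b : Fin k → ℝ) :
    IntegrableOn (fun u : Fin k → ℝ => D (Fin.cons 0 u : Fin (k + 1) → ℝ)) (Icc a b) := by
  have h1 : Continuous fun u : Fin k → ℝ => D (Fin.cons 0 u : Fin (k + 1) → ℝ) :=
    cons_cont.comp (continuous_const.prodMk continuous_id)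
  exact h1.continuousOn.integrableOn_compact isCompact_Icc

theorem slice_G (hD : S_DET) (a b : Fin k → ℝ) (s d : ℝ) (hd : 0 ≤ d) :
    d * H (fun i => a i - s) (fun i => b i - s - d) ≤
      G (cc (Ico s (s + d)) fun i => Ico (a i) (b i)) ∧
    G (cc (Ico s (s + d)) fun i => Ico (a i) (b i)) ≤
      d * H (fun i => a i - s - d) (fun i => b i - s) := by
  have hi := prod_int (c := fun i => Ico (a i) (b i)) (ico_bdd s (s + d)) (icos_bdd a b)
  rw [G_fubini (ico_bdd _ _) (icos_bdd a b)]
  have hint : IntegrableOn (fun y => ∫ v in Set.pi univ fun i => Ico (a i) (b i),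
      D (Fin.cons y v : Fin (k + 1) → ℝ)) (Ico s (s + d)) := by
    unfold IntegrableOn at hi ⊢
    rw [← Measure.prod_restrict] at hi
    exact hi.integral_prod_left
  have hconst : ∀ M : ℝ, d * M = ∫ _y in Ico s (s + d), M := by
    intro M
    rw [setIntegral_const, Real.volume_real_Ico_of_le (by linarith), smul_eq_mul]
    ring
  have hcm : ∀ i, MeasurableSet (Ico (a i) (b i)) := fun _ => measurableSet_Ico
  have hpos : ∀ u : Fin k → ℝ, 0 ≤ D (Fin.cons 0 u : Fin (k + 1) → ℝ) := fun u => (hD _ _).1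
  rw [hconst, hconst]
  constructor
  · refine setIntegral_mono_on (integrableOn_const (by simp)) hint measurableSet_Ico fun y hy => ?_
    rw [inner_eq _ hcm]
    unfold H
    refine setIntegral_mono_set ?_ (ae_of_all _ hpos) (LE.le.eventuallyLE ?_)
    · refine (H_int (fun i => a i - s - d) (fun i => b i - s)).mono_set ?_
      intro u hu
      refine ⟨fun i => ?_, fun i => ?_⟩
      · have := (hu i).1
        simp only
        linarith [hy.2]
      · have := (hu i).2
        simp only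
        linarith [hy.1]
    · intro u hu i
      have h1 : a i - s ≤ u i := hu.1 i
      have h2 : u i ≤ b i - s - d := hu.2 i
      constructor <;> linarith [hy.1, hy.2]
  · refine setIntegral_mono_on hint (integrableOn_const (by simp)) measurableSet_Ico fun y hy => ?_
    rw [inner_eq _ hcm]
    unfold H
    refine setIntegral_mono_set (H_int _ _) (ae_of_all _ hpos) (LE.le.eventuallyLE ?_)
    intro u hu
    refine ⟨fun i => ?_, fun i => ?_⟩
    · have := (hu i).1
      simp only
      linarith [hy.2]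
    · have := (hu i).2
      simp only
      linarith [hy.1]

/-- difference of the two bounds -/
theorem H_diff (hD : S_DET) (a b : Fin k → ℝ) (s d : ℝ) (hd : 0 ≤ d) (hab : ∀ i, d ≤ b i - a i) :
    H (fun i => a i - s - d) (fun i => b i - s) - H (fun i => a i - s) (fun i => b i - s - d) ≤
      ∏ i, (b i - a i + d) - ∏ i, (b i - a i - d) := by
  have hsub : Icc (fun i => a i - s) (fun i => b i - s - d) ⊆
      Icc (fun i => a i - s - d) (fun i => b i - s) := by
    refine Icc_subset_Icc (fun i => ?_) (fun i => ?_)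
    · simp only; linarith
    · simp only; linarith
  have hvol : ∀ α β : Fin k → ℝ, (∀ i, α i ≤ β i) → volume.real (Icc α β) = ∏ i, (β i - α i) := by
    intro α β h
    rw [measureReal_def, Real.volume_Icc_pi_toReal h]
  unfold H
  rw [← integral_diff measurableSet_Icc (H_int _ _) hsub]
  have h1 : ∫ u in Icc (fun i => a i - s - d) (fun i => b i - s) \
      Icc (fun i => a i - s) (fun i => b i - s - d), D (Fin.cons 0 u : Fin (k + 1) → ℝ) ≤
      ∫ _u in Icc (fun i => a i - s - d) (fun i => b i - s) \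
      Icc (fun i => a i - s) (fun i => b i - s - d), (1 : ℝ) := by
    refine setIntegral_mono_on ((H_int _ _).mono_set diff_subset) ?_
      (measurableSet_Icc.diff measurableSet_Icc) fun u _ => (hD _ _).2.1
    refine integrableOn_const ?_
    exact ((measure_mono diff_subset).trans_lt isCompact_Icc.measure_lt_top).ne
  refine h1.trans (le_of_eq ?_)
  rw [setIntegral_const, smul_eq_mul, mul_one,
    measureReal_diff hsub measurableSet_Icc isCompact_Icc.measure_lt_top.ne, hvol, hvol]
  · congr 1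
    · exact Finset.prod_congr rfl fun i _ => by ring
    · exact Finset.prod_congr rfl fun i _ => by ring
  · intro i
    linarith [hab i]
  · intro i
    linarith [hab i]

theorem PRD : S_PRD := by
  intro hD l J x X hX k hE a b hab
  obtain ⟨c, hc⟩ : ∃ c : Fin k → Set ℝ, c = fun i => Ico (a i.succ) (b i.succ) := ⟨_, rfl⟩
  have hcc : (fun i => Ico (a i) (b i)) = cc (Ico (a 0) (b 0)) c := by
    funext i
    refine Fin.cases ?_ (fun i => ?_) i
    · rfl
    · rw [hc]
      rfl
  rw [hcc]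
  obtain ⟨L₀, hL₀⟩ : ∃ L₀ : ℝ, L₀ = b 0 - a 0 := ⟨_, rfl⟩
  have hL₀p : 0 < L₀ := by rw [hL₀]; linarith [hab 0]
  have hcm : ∀ i, MeasurableSet (c i) := fun i => by rw [hc]; exact measurableSet_Ico
  have hcb : ∃ m : ℝ, ∀ i, c i ⊆ Icc (-m) m := by
    rw [hc]
    exact icos_bdd _ _
  -- the error
  obtain ⟨er, her⟩ : ∃ er : ℝ → ℝ, ∀ d, er d = ∏ i : Fin k, (b i.succ - a i.succ + d) -
      ∏ i : Fin k, (b i.succ - a i.succ - d) := ⟨_, fun _ => rfl⟩
  have herc : Tendsto er (𝓝 0) (𝓝 0) := by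
    have h1 : Continuous er := by
      have : er = fun d => ∏ i : Fin k, (b i.succ - a i.succ + d) -
        ∏ i : Fin k, (b i.succ - a i.succ - d) := funext her
      rw [this]
      fun_prop
    have h2 := h1.tendsto 0
    rw [her 0] at h2
    simpa using h2
  rw [Metric.tendsto_nhds]
  intro ε hε
  -- the choice of the number of slices
  have hd0 : Tendsto (fun R : ℕ => L₀ / R) atTop (𝓝 0) := tendsto_const_div_atTop_nhds_zero_nat L₀
  have hev1 : ∀ᶠ R : ℕ in atTop, L₀ * er (L₀ / R) < ε / 2 := by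
    have h1 : Tendsto (fun R : ℕ => L₀ * er (L₀ / R)) atTop (𝓝 (L₀ * 0)) :=
      (herc.comp hd0).const_mul L₀
    rw [mul_zero] at h1
    exact h1.eventually_lt_const (by linarith)
  have hev2 : ∀ᶠ R : ℕ in atTop, ∀ i : Fin k, L₀ / R < b i.succ - a i.succ := by
    rw [eventually_all]
    intro i
    exact hd0.eventually_lt_const (by linarith [hab i.succ])
  obtain ⟨R, ⟨h1, h2⟩, hR⟩ := ((hev1.and hev2).and (eventually_ge_atTop 1)).exists
  have hRp : (0 : ℝ) < R := by exact_mod_cast hR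
  obtain ⟨d, hdd⟩ : ∃ d : ℝ, d = L₀ / R := ⟨_, rfl⟩
  rw [← hdd] at h1 h2
  have hd : 0 < d := by rw [hdd]; positivity
  have hRd : (R : ℝ) * d = L₀ := by rw [hdd]; field_simp
  obtain ⟨sl1, sl2⟩ := slices c hcm hcb (a 0) d hd.le R
  have hend : a 0 + R * d = b 0 := by rw [hRd, hL₀]; ring
  rw [hend] at sl1 sl2
  -- limits
  have lim1 : Tendsto (fun T => ∑ p ∈ Finset.range R, d * (((dif (J T) (x T)
      (fun i : Fin k => a i.succ - (a 0 + p * d))
      (fun i => b i.succ - (a 0 + p * d) - d)).card : ℝ) / X T)) l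
      (𝓝 (∑ p ∈ Finset.range R, d * H (fun i : Fin k => a i.succ - (a 0 + p * d))
        (fun i => b i.succ - (a 0 + p * d) - d))) := by
    refine tendsto_finset_sum _ fun p _ => (hE _ _ fun i => ?_).const_mul d
    linarith [h2 i]
  have lim2 : Tendsto (fun T => ∑ p ∈ Finset.range R, d * (((dif (J T) (x T)
      (fun i : Fin k => a i.succ - (a 0 + p * d) - d)
      (fun i => b i.succ - (a 0 + p * d))).card : ℝ) / X T)) l
      (𝓝 (∑ p ∈ Finset.range R, d * H (fun i : Fin k => a i.succ - (a 0 + p * d) - d)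
        (fun i => b i.succ - (a 0 + p * d)))) := by
    refine tendsto_finset_sum _ fun p _ => (hE _ _ fun i => ?_).const_mul d
    linarith [h2 i]
  -- the sandwich for the integral
  have g1 : ∑ p ∈ Finset.range R, d * H (fun i : Fin k => a i.succ - (a 0 + p * d))
        (fun i => b i.succ - (a 0 + p * d) - d) ≤ G (cc (Ico (a 0) (b 0)) c) := by
    rw [sl2]
    refine Finset.sum_le_sum fun p _ => ?_
    rw [hc]
    exact (slice_G hD _ _ _ d hd.le).1
  have g2 : G (cc (Ico (a 0) (b 0)) c) ≤ ∑ p ∈ Finset.range R,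
      d * H (fun i : Fin k => a i.succ - (a 0 + p * d) - d) (fun i => b i.succ - (a 0 + p * d)) := by
    rw [sl2]
    refine Finset.sum_le_sum fun p _ => ?_
    rw [hc]
    exact (slice_G hD _ _ _ d hd.le).2
  have g3 : ∑ p ∈ Finset.range R,
      d * H (fun i : Fin k => a i.succ - (a 0 + p * d) - d) (fun i => b i.succ - (a 0 + p * d)) -
      ∑ p ∈ Finset.range R, d * H (fun i : Fin k => a i.succ - (a 0 + p * d))
        (fun i => b i.succ - (a 0 + p * d) - d) ≤ L₀ * er d := by
    rw [← Finset.sum_sub_distrib]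
    calc _ ≤ ∑ _p ∈ Finset.range R, d * er d := by
          refine Finset.sum_le_sum fun p _ => ?_
          rw [← mul_sub, her]
          refine mul_le_mul_of_nonneg_left ?_ hd.le
          exact H_diff hD (fun i => a i.succ) (fun i => b i.succ) (a 0 + p * d) d hd.le
            fun i => (h2 i).le
      _ = _ := by
          rw [Finset.sum_const, Finset.card_range, nsmul_eq_mul, ← mul_assoc, hRd]
  have e1 := (Metric.tendsto_nhds.mp lim1) (ε / 2) (by linarith)
  have e2 := (Metric.tendsto_nhds.mp lim2) (ε / 2) (by linarith)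
  filter_upwards [e1, e2, hX] with T f1 f2 f3
  rw [Real.dist_eq, abs_lt] at f1 f2 ⊢
  have k1 : ∑ p ∈ Finset.range R, d * (((dif (J T) (x T)
      (fun i : Fin k => a i.succ - (a 0 + p * d))
      (fun i => b i.succ - (a 0 + p * d) - d)).card : ℝ) / X T) ≤
      mom (J T) (x T) (cc (Ico (a 0) (b 0)) c) / X T := by
    rw [sl1, Finset.sum_div]
    refine Finset.sum_le_sum fun p _ => ?_
    rw [← mul_div_assoc]
    refine div_le_div_of_nonneg_right ?_ f3.le
    rw [hc]
    exact (slice_mom _ _ _ d hd.le).1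
  have k2 : mom (J T) (x T) (cc (Ico (a 0) (b 0)) c) / X T ≤
      ∑ p ∈ Finset.range R, d * (((dif (J T) (x T)
      (fun i : Fin k => a i.succ - (a 0 + p * d) - d)
      (fun i => b i.succ - (a 0 + p * d))).card : ℝ) / X T) := by
    rw [sl1, Finset.sum_div]
    refine Finset.sum_le_sum fun p _ => ?_
    rw [← mul_div_assoc]
    refine div_le_div_of_nonneg_right ?_ f3.le
    rw [hc]
    exact (slice_mom _ _ _ d hd.le).2
  constructor
  · linarith [f1.1, f1.2, f2.1, f2.2]
  · linarith [f1.1, f1.2, f2.1, f2.2]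

end Pool.Agent.N478.VP

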